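import Pool.Agent.W423.NT.Defs
import Pool.Agent.W880.NX.RelP

/-!
# NT-RELP: the relation for products (adaptation of `Pool.Agent.W880.NX.RelP`)
-/

set_option autoImplicit false
set_option maxHeartbeats 1000000

namespace Pool.Agent.W378.NTQ

open MvPolynomial Pool.Agent.H628R4.TZ Pool.Agent.W425.SM
open Pool.Agent.H628R4.TP hiding Sh
open Pool.Agent.W525.SM (Sh)
open Pool.Agent.W423.MG Pool.Agent.W423.NC Pool.Agent.W423.NX Pool.Agent.W423.NT
open Pool.Agent.W880.NX

variable {r N P : ℕ}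

theorem relPW_of (h1 : TaskModL) (h2 : TaskRise) : TaskRelPW := by
  classical
  intro r N P loc g v θ m bs b L hsurj hm hbs hrel
  obtain ⟨M, n, n0, c, B, q, c0, q0, hK1, hK0, hrel⟩ := hrel
  refine ⟨r * M + 2, by omega, ?_⟩
  intro θ0 η α0 αx hη hαx hα
  obtain ⟨τ, hτ⟩ : ∃ τ : MvPolynomial (Fin (r+1)) ℂ, τ = Sg r + C (η : ℂ) := ⟨_, rfl⟩
  obtain ⟨A, hA⟩ : ∃ A : MvPolynomial (Fin r) ℂ, A = ∏ j, dm M j := ⟨_, rfl⟩
  obtain ⟨Cp, hCp⟩ : ∃ Cp : MvPolynomial (Fin r) ℂ,
    Cp = ∑ t, (∏ j, if c0 t j < 0 then X j * dm M j else 1) * q0 t := ⟨_, rfl⟩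
  obtain ⟨Bp, hBp⟩ : ∃ Bp : MvPolynomial (Fin r) ℂ, Bp = ∑ t, (∏ i ∈ B t, el v i) *
    ((∏ j, if c t j < 0 then X j * dm M j else 1) * q t) := ⟨_, rfl⟩
  obtain ⟨G, hG⟩ : ∃ G : MvPolynomial (Fin (r+1)) ℂ,
    G = Polynomial.aeval τ b * rn A - (rn Bp + rn Cp) := ⟨_, rfl⟩
  rw [← hA, ← hBp, ← hCp] at hrel
  have hGm : G ∈ Ideal.span (Set.range fun k =>
      rn (sgm g k) - C ((m k : ℕ) : ℂ) * (Sg r + C (η : ℂ))) := by
    refine h1 g m η L G hsurj hm ?_
    intro n u hLn hu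
    obtain ⟨x, hx⟩ : ∃ x : Fin (r+1) → ℂ, x = (Fin.cons ((n : ℂ) - (η : ℂ) - ∑ j, (u j : ℂ))
      (fun j => (u j : ℂ)) : Fin (r+1) → ℂ) := ⟨_, rfl⟩
    rw [← hx]
    have hgs : gs g u = fun k => m k * n := funext hu
    have hτx : eval x τ = (n : ℂ) := by
      rw [hτ, hx]
      unfold Sg
      rw [map_add, map_sum, Fin.sum_univ_succ, eval_C]
      simp
    have hAx : eval x (rn A) = eval (fun j => (u j : ℂ)) A := by rw [hx, eval_cons_rn]
    have hBx : eval x (rn Bp) = eval (fun j => (u j : ℂ)) Bp := by rw [hx, eval_cons_rn]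
    have hCx : eval x (rn Cp) = eval (fun j => (u j : ℂ)) Cp := by rw [hx, eval_cons_rn]
    have h3 := hrel u ⟨n, hLn, hgs⟩
    rw [map_add] at h3
    rw [hG, map_sub, map_mul, map_add, eval_aeval, hτx, hAx, hBx, hCx, ← hbs n, ← hgs, h3,
      sub_self]
  obtain ⟨G', hG'⟩ := Ideal.mem_span_range_iff_exists_fun.1 hGm
  choose H hH using fun k => rise_span h2 g M k
  -- the factor `X_0 * dm_0`
  obtain ⟨Z, hZ⟩ : ∃ Z : MvPolynomial (Fin (r+1)) ℂ, Z = X 0 * dm M 0 := ⟨_, rfl⟩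
  refine relX_mk (ι := Fin n ⊕ (Fin n0 ⊕ Fin r)) _ _ _ _ _ _ M
    (Sum.elim (fun t => Fin.cons (1 - ∑ k, (m k : ℤ)) (c t))
      (Sum.elim (fun t => Fin.cons 0 (c0 t))
        (fun j0 => Fin.cons 1 (fun j => if j = j0 then -1 else 0))))
    (Sum.elim (fun t => (B t).map (Fin.natAddEmb (P+1)))
      (Sum.elim (fun _ => ∅) (fun j0 => {Fin.castAdd N (g j0)})))
    (Sum.elim (fun t => (if 1 - ∑ k, (m k : ℤ) < 0 then 1 else Z) *
        (rn (rise g (r * M + 2)) * rn (q t)))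
      (Sum.elim (fun t => Z * rn (rise g (r * M + 2)) * rn (q0 t))
        (fun j0 => - (Z * rn (H (g j0) j0) * G' (g j0))))) ?_ ?_
  · rintro (t | t | t)
    · exact kill1 g v θ m hm θ0 α0 αx (c t) (B t) (hK1 t)
    · exact kill2 loc g v θ m hm θ0 α0 αx hαx (c0 t) (hK0 t)
    · exact kill3 g v θ m hm θ0 α0 αx t (hα t)
  · rw [Fintype.sum_sum_type, Fintype.sum_sum_type]
    have e1 : ∀ t, (∏ i ∈ (B t).map (Fin.natAddEmb (P+1)),
        elW (vx g v m) (wh fun k => η * (m k : ℝ)) i) *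
        ((∏ j, if (Fin.cons (1 - ∑ k, (m k : ℤ)) (c t) : Fin (r+1) → ℤ) j < 0 then
          X j * dm M j else 1) * (1 * ((if 1 - ∑ k, (m k : ℤ) < 0 then 1 else Z) *
        (rn (rise g (r * M + 2)) * rn (q t))))) =
        Z * rn (rise g (r * M + 2)) * rn ((∏ i ∈ B t, el v i) *
          ((∏ j, if c t j < 0 then X j * dm M j else 1) * q t)) := by
      intro t
      rw [Finset.prod_map, prod_neg]
      obtain ⟨Y, hY⟩ : ∃ Y : MvPolynomial (Fin r) ℂ,
        Y = ∏ j, if c t j < 0 then X j * dm M j else 1 := ⟨_, rfl⟩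
      rw [← hY, map_mul, map_prod, map_mul]
      have h3 : ∀ i, elW (vx g v m) (wh fun k => η * (m k : ℝ)) ((Fin.natAddEmb (P+1)) i) =
        rn (el v i) := fun i => elW_n g v m _ i
      rw [Finset.prod_congr rfl fun i _ => h3 i]
      split_ifs
      · rw [hZ]; ring
      · ring
    have e2 : ∀ t, (∏ i ∈ (∅ : Finset (Fin (P+1+N))),
        elW (vx g v m) (wh fun k => η * (m k : ℝ)) i) *
        ((∏ j, if (Fin.cons 0 (c0 t) : Fin (r+1) → ℤ) j < 0 then
          X j * dm M j else 1) * (1 * (Z * rn (rise g (r * M + 2)) * rn (q0 t)))) =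
        Z * rn (rise g (r * M + 2)) *
          rn ((∏ j, if c0 t j < 0 then X j * dm M j else 1) * q0 t) := by
      intro t
      rw [Finset.prod_empty, prod_neg, if_neg (lt_irrefl _), map_mul]
      ring
    have e3 : ∀ t : Fin r, (∏ i ∈ ({Fin.castAdd N (g t)} : Finset (Fin (P+1+N))),
        elW (vx g v m) (wh fun k => η * (m k : ℝ)) i) *
        ((∏ j, if (Fin.cons 1 (fun j => if j = t then -1 else 0) : Fin (r+1) → ℤ) j < 0 then
          X j * dm M j else 1) * (1 * -(Z * rn (H (g t) t) * G' (g t)))) =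
        Z * (G' (g t) * (rn (sgm g (g t)) - C ((m (g t) : ℕ) : ℂ) * (Sg r + C (η : ℂ)))) *
          rn (H (g t) t * (X t * dm M t)) := by
      intro t
      rw [Finset.prod_singleton, elW_c g v m hm, prod_neg, if_neg (by norm_num)]
      have h3 : (∏ j, if (if j = t then (-1 : ℤ) else 0) < 0 then
          (X j * dm M j : MvPolynomial (Fin r) ℂ) else 1) = X t * dm M t := by
        rw [Finset.prod_eq_single t]
        · simp
        · intro j _ hj
          simp [hj]
        · intro h; exact absurd (Finset.mem_univ _) h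
      rw [h3, map_mul rn (H (g t) t)]
      ring
    have f1 : ∑ t, Z * rn (rise g (r * M + 2)) * rn ((∏ i ∈ B t, el v i) *
          ((∏ j, if c t j < 0 then X j * dm M j else 1) * q t)) =
        Z * rn (rise g (r * M + 2)) * rn Bp := by
      rw [hBp, map_sum, Finset.mul_sum]
    have f2 : ∑ t, Z * rn (rise g (r * M + 2)) *
          rn ((∏ j, if c0 t j < 0 then X j * dm M j else 1) * q0 t) =
        Z * rn (rise g (r * M + 2)) * rn Cp := by
      rw [hCp, map_sum, Finset.mul_sum]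
    have f3 : ∑ t : Fin r, Z * (G' (g t) * (rn (sgm g (g t)) -
          C ((m (g t) : ℕ) : ℂ) * (Sg r + C (η : ℂ)))) * rn (H (g t) t * (X t * dm M t)) =
        Z * rn (rise g (r * M + 2)) * G := by
      rw [← hG', Finset.mul_sum]
      have h3 : ∀ k, Z * rn (rise g (r * M + 2)) * (G' k * (rn (sgm g k) -
          C ((m k : ℕ) : ℂ) * (Sg r + C (η : ℂ)))) =
          ∑ t : Fin r, if g t = k then Z * (G' (g t) * (rn (sgm g (g t)) -
          C ((m (g t) : ℕ) : ℂ) * (Sg r + C (η : ℂ)))) * rn (H (g t) t * (X t * dm M t))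
            else 0 := by
        intro k
        rw [hH k, map_sum, Finset.mul_sum, Finset.sum_mul]
        refine Finset.sum_congr rfl fun t _ => ?_
        by_cases ht : g t = k
        · rw [if_pos ht, if_pos ht, ht]
          ring
        · rw [if_neg ht, if_neg ht, map_zero, mul_zero, zero_mul]
      rw [Finset.sum_congr rfl fun k _ => h3 k, Finset.sum_comm]
      refine Finset.sum_congr rfl fun t _ => ?_
      rw [Finset.sum_ite_eq Finset.univ (g t), if_pos (Finset.mem_univ _)]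
    have g1 := (Finset.sum_congr rfl fun t _ => e1 t).trans f1
    have g2 := (Finset.sum_congr rfl fun t _ => e2 t).trans f2
    have g3 := (Finset.sum_congr rfl fun t _ => e3 t).trans f3
    refine Eq.trans ?_ (congrArg₂ (fun x y => x + y) g1 (congrArg₂ (fun x y => x + y) g2 g3)).symm
    have hW : ∏ j, dm M j = dm M 0 * rn A := by
      rw [hA, Fin.prod_univ_succ, map_prod]
      simp only [rn_dm]
    rw [hG, hW, ← hτ, hZ]
    ring

end Pool.Agent.W378.NTQ
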