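import Pool.Agent.W201.NT.StmT

/-!
# NT-MV: the vanishing part of the Mayer-Vietoris sequence
-/

set_option autoImplicit false

open Finsupp

namespace Pool.Agent.W378.NT

open Pool.Agent.Helper381 Pool.Agent.W201.NT

variable {X : Type} [TopologicalSpace X]

/-- chains supported on simplices with range in `S` -/
noncomputable abbrev sup (S : Set X) (n : ℕ) : Submodule ℤ (Sing X n →₀ ℤ) :=
  Finsupp.supported ℤ ℤ {σ : Sing X n | Set.range σ ⊆ S}

theorem smallSet_single (S : Set X) (n : ℕ) :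
    smallSet ({S} : Set (Set X)) n = {σ : Sing X n | Set.range σ ⊆ S} := by
  ext σ
  simp [smallSet]

theorem sbd_sup (S : Set X) (n : ℕ) (z : Sing X (n + 1) →₀ ℤ) (hz : z ∈ sup S (n + 1)) :
    sbd X n z ∈ sup S n := by
  have := sbd_small ({S} : Set (Set X)) n z (by rw [smallSet_single]; exact hz)
  rw [smallSet_single] at this
  exact this

theorem sbd_cyc (n : ℕ) (a : Sing X (n + 1) →₀ ℤ) : sbd X n a ∈ Cyc ℤ X n := by
  cases n with
  | zero => exact Submodule.mem_top
  | succ n =>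
    show bdR ℤ X n (sbd X (n + 1) a) = 0
    rw [bdR_int]
    exact sbd_sbd n a

theorem sup_inter (A B : Set X) (n : ℕ) (z : Sing X n →₀ ℤ) (h1 : z ∈ sup A n) (h2 : z ∈ sup B n) :
    z ∈ sup (A ∩ B) n := by
  rw [Finsupp.mem_supported] at h1 h2 ⊢
  intro σ hσ
  exact Set.subset_inter (h1 hσ) (h2 hσ)

theorem sup_mono {A B : Set X} (h : A ⊆ B) (n : ℕ) {z : Sing X n →₀ ℤ} (h1 : z ∈ sup A n) :
    z ∈ sup B n := by
  rw [Finsupp.mem_supported] at h1 ⊢
  intro σ hσ
  exact Set.Subset.trans (h1 hσ) h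

theorem split (A B : Set X) (n : ℕ) (z : Sing X n →₀ ℤ)
    (h : z ∈ Finsupp.supported ℤ ℤ (smallSet ({A, B} : Set (Set X)) n)) :
    ∃ a ∈ sup A n, ∃ b ∈ sup B n, a + b = z := by
  have e : smallSet ({A, B} : Set (Set X)) n =
      {σ : Sing X n | Set.range σ ⊆ A} ∪ {σ : Sing X n | Set.range σ ⊆ B} := by
    ext σ
    simp [smallSet]
  rw [e, Finsupp.supported_union, Submodule.mem_sup] at h
  exact h

theorem main : S_SUB → S_MV := by
  intro hS X _ A B hA hB hAB n hVA hVB hVI z hz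
  have hz' : sbd X n z = 0 := by
    rw [← bdR_int]; exact hz
  have hopen : ∀ C ∈ ({A, B} : Set (Set X)), IsOpen C := by
    intro C hC
    rcases hC with rfl | hC
    · exact hA
    · rw [Set.mem_singleton_iff] at hC
      rw [hC]; exact hB
  have hcov : ∀ x : X, ∃ C ∈ ({A, B} : Set (Set X)), x ∈ C := by
    intro x
    have hx : x ∈ A ∪ B := by rw [hAB]; trivial
    rcases hx with hx | hx
    · exact ⟨A, by simp, hx⟩
    · exact ⟨B, by simp, hx⟩
  have h1 := rho_succ ({A, B} : Set (Set X)) n z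
  rw [hz', map_zero, sub_zero] at h1
  have h2 := rho_small ({A, B} : Set (Set X)) hopen hcov (n + 1) z
  obtain ⟨a, ha, b, hb, hab⟩ := split A B (n + 1) _ h2
  have h3 : sbd X n (a + b) = 0 := by
    rw [hab, h1, map_sub, hz', sbd_sbd, sub_zero]
  have h4 : sbd X n a = - sbd X n b := by
    rw [map_add] at h3
    exact eq_neg_of_add_eq_zero_left h3
  have hcA : sbd X n a ∈ sup A n := sbd_sup A n a ha
  have hcB : sbd X n a ∈ sup B n := by
    rw [h4]
    exact Submodule.neg_mem _ (sbd_sup B n b hb)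
  obtain ⟨e, he, hec⟩ := (hS X (A ∩ B) n).1 hVI _ (sbd_cyc n a) (sup_inter A B n _ hcA hcB)
  rw [bdR_int] at hec
  obtain ⟨p, _, hp⟩ := (hS X A (n + 1)).1 hVA (a - e)
    (by
      show bdR ℤ X n (a - e) = 0
      rw [bdR_int, map_sub, hec, sub_self])
    (Submodule.sub_mem _ ha (sup_mono Set.inter_subset_left _ he))
  obtain ⟨r, _, hr⟩ := (hS X B (n + 1)).1 hVB (b + e)
    (by
      show bdR ℤ X n (b + e) = 0
      rw [bdR_int, map_add, hec, h4, add_neg_cancel])
    (Submodule.add_mem _ hb (sup_mono Set.inter_subset_right _ he))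
  refine ⟨p + r + DD ({A, B} : Set (Set X)) (n + 1) z, ?_⟩
  rw [map_add, map_add, hp, hr, bdR_int]
  have h5 : z = rho ({A, B} : Set (Set X)) (n + 1) z +
      sbd X (n + 1) (DD ({A, B} : Set (Set X)) (n + 1) z) := by
    rw [h1]; abel
  conv_rhs => rw [h5, ← hab]
  abel

end Pool.Agent.W378.NT
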