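import Pool.Agent.W423.NT.Defs
import Pool.Agent.W372.SG.G1

set_option autoImplicit false

/-! Project NT (helper423), part DESCQ: descent from power series to polynomials in the
coefficients, for tuples (adaptation of `Pool.Agent.W494.ND.DESC`). -/

namespace Pool.Agent.W378.NTQ

open MvPolynomial Pool.Agent.W372.SG Pool.Agent.W423.NT
open Pool.Agent.W425.ND (tr)

variable {d N P : ℕ}

theorem brkQ_map {R R' : Type} [CommRing R] [CommRing R'] (κ : R →+* R')
    (M : Fin (P+1) → Fin d → ℕ) (G : Fin (P+1) → MvPolynomial (Fin N) R)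
    (p : MvPolynomial (Fin N) R) (μ : Fin (P+1) → ℕ) (n : Fin d → ℕ) (e : Fin N →₀ ℕ) :
    brkQ M (fun k => map κ (G k)) (map κ p) μ n e = κ (brkQ M G p μ n e) := by
  unfold brkQ
  rw [← coeff_map, map_mul, map_mul, map_natCast, map_prod]
  simp only [map_pow]

theorem evQ_map {R R' : Type} [CommRing R] [CommRing R'] (κ : R →+* R') (n : Fin d → ℕ)
    (e : Fin N →₀ ℕ) (o : Fin d ⊕ Fin N) : (evQ n e o : R') = κ (evQ n e o) := by
  rcases o with t | i
  · show ((n t : ℕ) : R') = κ ((n t : ℕ) : R)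
    rw [map_natCast]
  · show ((e i : ℕ) : R') = κ ((e i : ℕ) : R)
    rw [map_natCast]

section

variable {S R K L : Type} [CommRing S] [CommRing R] [Field K] [Field L]
  (κ : S →+* R) (ι : S →+* K) (ιL : R →+* L) (ψ : K →+* L) (π : L →+ K)

theorem low_pi (hψ : ∀ x, ψ (ι x) = ιL (κ x)) (hπ : ∀ x y, π (ψ x * y) = x * π y)
    (δ : Fin N → ℤ) (Q : MvPolynomial (Fin d ⊕ Fin N) R) (u : FnQ d N S) (u' : FnQ d N R)
    (hu : ∀ s e, u' s e = κ (u s e)) (s : Fin d → ℕ) (e : Fin N →₀ ℕ) :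
    π (ιL (lowQ δ (Q • u') s e)) = if ∀ i, 0 ≤ (e i : ℤ) + δ i then
      ι ((∏ i, ((e i : ℤ) + δ i).toNat.descFactorial (δ i).toNat : ℕ) : S) *
        (eval (fun o => ι (evQ s (tr δ e) o)) (pm π (map ιL Q)) * ι (u s (tr δ e))) else 0 := by
  unfold lowQ
  split_ifs with h
  · rw [smulQ_apply, hu, map_mul ιL, map_mul ιL, ← hψ]
    have h1 : ιL ((∏ i, ((e i : ℤ) + δ i).toNat.descFactorial (δ i).toNat : ℕ) : R) =
        ψ (ι ((∏ i, ((e i : ℤ) + δ i).toNat.descFactorial (δ i).toNat : ℕ) : S)) := by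
      rw [map_natCast, map_natCast, map_natCast]
    have h2 : ιL (eval (evQ s (tr δ e)) Q) =
        eval (fun o => ψ (ι (evQ s (tr δ e) o))) (map ιL Q) := by
      rw [eval_map]
      have h3 : (fun o => ψ (ι (evQ s (tr δ e) o))) = fun o => ιL (evQ s (tr δ e) o) := by
        funext o
        rw [hψ, ← evQ_map κ]
      rw [h3]
      exact (eval₂_comp ιL _ _)
    rw [h1, h2, hπ, mul_comm (eval _ _) (ψ _), hπ, ← eval_pm ψ π hπ]
    ring
  · rw [map_zero, map_zero]

theorem low_iota (δ : Fin N → ℤ) (q : MvPolynomial (Fin d ⊕ Fin N) S)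
    (p : MvPolynomial (Fin d ⊕ Fin N) K)
    (c : S) (hq : map ι q = C (ι c) * p) (u : FnQ d N S) (s : Fin d → ℕ) (e : Fin N →₀ ℕ) :
    ι (lowQ δ (q • u) s e) = ι c * if ∀ i, 0 ≤ (e i : ℤ) + δ i then
      ι ((∏ i, ((e i : ℤ) + δ i).toNat.descFactorial (δ i).toNat : ℕ) : S) *
        (eval (fun o => ι (evQ s (tr δ e) o)) p * ι (u s (tr δ e))) else 0 := by
  unfold lowQ
  split_ifs with h
  · rw [smulQ_apply, map_mul ι, map_mul ι]
    have h2 : ι (eval (evQ s (tr δ e)) q) = eval (fun o => ι (evQ s (tr δ e) o)) (map ι q) := by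
      rw [eval_map]
      exact (eval₂_comp ι _ _)
    rw [h2, hq, map_mul, eval_C]
    ring
  · rw [map_zero, mul_zero]

end

/-- **DESCQ** -/
theorem taskDESCQ : TaskDESCQ := by
  classical
  intro d r N P loc M g v a' B ha hrel
  obtain ⟨L0, n1, n0, δ, c, m, Q, δ0, c0, m0, Q0, hc, hc0, hδ0, hfe⟩ := hrel
  -- rings
  let S := MvPolynomial (Fin r) ℂ
  let K := FractionRing (MvPolynomial (Fin r) ℂ)
  let LL := FractionRing (PowerSeries ℂ)
  let ι : MvPolynomial (Fin r) ℂ →+* K := algebraMap _ K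
  have hι : Function.Injective ι := IsFractionRing.injective _ K
  let ιL : PowerSeries ℂ →+* LL := algebraMap _ LL
  have hιL : Function.Injective ιL := IsFractionRing.injective _ LL
  let κ : MvPolynomial (Fin r) ℂ →+* PowerSeries ℂ :=
    (aeval a' : MvPolynomial (Fin r) ℂ →ₐ[ℂ] PowerSeries ℂ).toRingHom
  have hκ : Function.Injective κ := ha
  have hφ : Function.Injective (ιL.comp κ) := hιL.comp hκ
  let ψ : K →+* LL := IsFractionRing.lift hφ
  have hψ : ∀ x, ψ (ι x) = ιL (κ x) := fun x => IsFractionRing.lift_algebraMap hφ x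
  obtain ⟨π, hπ, hπ1⟩ := retr ψ
  -- the tuple
  set fX : Fin (P+1) → MvPolynomial (Fin N) (MvPolynomial (Fin r) ℂ) := polyR g v X with hfX
  have hf : polyR g v a' = fun k => map κ (fX k) := by
    funext k
    rw [hfX]
    unfold polyR
    rw [map_sum]
    refine Finset.sum_congr rfl fun j _ => ?_
    split_ifs with hj
    · rw [map_mul, map_C, map_prod]
      congr 1
      · congr 1
        exact (aeval_X a' j).symm
      · refine Finset.prod_congr rfl fun i _ => ?_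
        rw [map_pow, map_X]
    · rw [map_zero]
  have hbr : ∀ (c : Fin N →₀ ℕ) (μ : Fin (P+1) → ℕ) (s : Fin d → ℕ) (e : Fin N →₀ ℕ),
      brkQ M (polyR g v a') (monomial c 1) μ s e = κ (brkQ M fX (monomial c 1) μ s e) := by
    intro c m s e
    rw [← brkQ_map κ, ← hf]
    congr 1
    rw [map_monomial, map_one κ]
  have hB : ∀ s : Fin d → ℕ, algebraMap ℂ (PowerSeries ℂ) (eval (fun t => (s t : ℂ)) B) =
      κ (algebraMap ℂ (MvPolynomial (Fin r) ℂ) (eval (fun t => (s t : ℂ)) B)) := by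
    intro s
    exact ((aeval a' : MvPolynomial (Fin r) ℂ →ₐ[ℂ] PowerSeries ℂ).commutes _).symm
  have hpr : ∀ s : Fin d → ℕ, ∏ k, polyR g v a' k ^ SM M s k = map κ (∏ k, fX k ^ SM M s k) := by
    intro s
    rw [hf, map_prod]
    simp only [map_pow]
  -- denominators
  obtain ⟨D, q, hd, hq⟩ := clear_den (R := MvPolynomial (Fin r) ℂ) (K := K)
    (Finset.univ : Finset (Fin n1 ⊕ Fin n0))
    (fun o => pm π (map ιL (Sum.elim Q Q0 o)))
  refine ⟨D, hd, L0, n1, n0, δ, c, m, fun k => q (Sum.inl k), δ0, c0, m0,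
    fun k => q (Sum.inr k), hc, hc0, hδ0, ?_⟩
  intro s hs e
  have h1 := hfe s hs e
  rw [mul_one, hpr, coeff_map, hB] at h1
  have h2 := congrArg π (congrArg ιL h1)
  rw [map_mul ιL, ← hψ, ← hψ, ← mul_one (ψ (ι (coeff e (∏ k, fX k ^ SM M s k)))), hπ, hπ, hπ1,
    mul_one, map_add ιL, map_add π, map_sum ιL, map_sum ιL, map_sum π, map_sum π] at h2
  apply hι
  rw [map_add, map_sum, map_sum]
  have h3 : ι (algebraMap ℂ (MvPolynomial (Fin r) ℂ) (eval (fun t => (s t : ℂ)) B) * D *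
        coeff e (∏ k, fX k ^ SM M s k)) =
      ι D * (ι (algebraMap ℂ (MvPolynomial (Fin r) ℂ) (eval (fun t => (s t : ℂ)) B)) *
        ι (coeff e (∏ k, fX k ^ SM M s k))) := by
    rw [map_mul, map_mul]; ring
  rw [h3, h2, mul_add, Finset.mul_sum, Finset.mul_sum]
  congr 1
  · refine Finset.sum_congr rfl fun k _ => ?_
    rw [low_pi κ ι ιL ψ π hψ hπ (δ k) (Q k) (shQ 1 (brkQ M fX (monomial (c k) 1) (m k)))
      (shQ 1 (brkQ M (polyR g v a') (monomial (c k) 1) (m k))) (fun s e => hbr _ _ _ _) s e,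
      low_iota ι (δ k) (q (Sum.inl k)) (pm π (map ιL (Q k))) D
        (hq (Sum.inl k) (Finset.mem_univ _)) _ s e]
  · refine Finset.sum_congr rfl fun k _ => ?_
    rw [low_pi κ ι ιL ψ π hψ hπ (δ0 k) (Q0 k) (brkQ M fX (monomial (c0 k) 1) (m0 k))
      (brkQ M (polyR g v a') (monomial (c0 k) 1) (m0 k)) (fun s e => hbr _ _ _ _) s e,
      low_iota ι (δ0 k) (q (Sum.inr k)) (pm π (map ιL (Q0 k))) D
        (hq (Sum.inr k) (Finset.mem_univ _)) _ s e]

end Pool.Agent.W378.NTQ
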